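import Mathlib

/-!
# Poset tournaments are not chi-bounded (problem MP_265233_co)

We disprove Q1.  For every `m` there is a poset tournament `T` with clique number at most `2`
and dichromatic number larger than `m`.

Idea.  Let `G` be a triangle-free graph on a finite set of points of the plane (distinct `x`- and
`y`-coordinates) all of whose edges have positive slope and span an axis-parallel box that
contains no further point (a subgraph of the Hasse diagram of a 2-dimensional poset).  Let `T` be
the tournament whose backedge graph for the `y`-order is `G`.  For the `x`-order the forward arcs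
of `T` are the pairs of positive slope that are not edges of `G`, and they form a transitive
relation.  An acyclic set of `T` induces a bipartite subgraph of `G`.  Point sets for which the
chromatic number of `G` is arbitrarily large are obtained from the Tutte–Descartes construction.
-/

namespace Pool.Agent.Results.MP_265233_co.NotChiBounded

/-- `T` is (the arc relation of) a tournament: irreflexive, and between two distinct vertices there
is exactly one arc. -/
def IsTournament {V : Type} (T : V → V → Prop) : Prop :=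
  (∀ v, ¬ T v v) ∧ (∀ u v, u ≠ v → T u v ∨ T v u) ∧ (∀ u v, T u v → ¬ T v u)

/-- `T` is a poset tournament: some strict total order `r` has the property that
`u < v < w`, `u → v` and `v → w` imply `u → w`. -/
def IsPosetTournament {V : Type} (T : V → V → Prop) : Prop :=
  IsTournament T ∧
    ∃ r : V → V → Prop, IsStrictTotalOrder V r ∧
      ∀ u v w, r u v → r v w → T u v → T v w → T u w

/-- The subdigraph of `D` induced by `S` has no directed cycle. -/
def AcyclicOn {V : Type} (D : V → V → Prop) (S : Set V) : Prop :=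
  ∀ v, ¬ Relation.TransGen (fun a b => a ∈ S ∧ b ∈ S ∧ D a b) v v

/-- The dichromatic number: the least `k` such that the vertices can be coloured with `k` colours
with every colour class inducing an acyclic subdigraph. -/
noncomputable def dichromaticNumber {V : Type} (D : V → V → Prop) : ℕ :=
  sInf {k | ∃ c : V → Fin k, ∀ i, AcyclicOn D {v | c v = i}}

/-- The backedge graph of `D` for the strict total order `r`: `v` and `w` are adjacent when
`v < w` and `w → v`. -/
def backedge {V : Type} (D : V → V → Prop) (r : V → V → Prop) : SimpleGraph V :=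
  SimpleGraph.fromRel (fun v w => r v w ∧ D w v)

/-- The clique number of a digraph: the minimum over all strict total orders of the clique number
of the backedge graph. -/
noncomputable def cliqueNumber {V : Type} (D : V → V → Prop) : ℕ :=
  sInf {k | ∃ r : V → V → Prop, IsStrictTotalOrder V r ∧ k = (backedge D r).cliqueNum}

/-! ### Point configurations -/

/-- Points with natural coordinates, and a graph all of whose edges have positive slope and span
an empty box. -/
structure Good {V : Type} (x y : V → ℕ) (G : SimpleGraph V) : Prop where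
  xinj : Function.Injective x
  yinj : Function.Injective y
  pos : ∀ u v, G.Adj u v → x u < x v → y u < y v
  box : ∀ u v w, G.Adj u w → x u < x v → x v < x w → y u < y v → y v < y w → False
  tri : ∀ u v w, G.Adj u v → G.Adj v w → G.Adj u w → False

theorem lexlt {K a b r s : ℕ} (hr : r < K) (hs : s < K) :
    K * a + r < K * b + s ↔ a < b ∨ (a = b ∧ r < s) := by
  constructor
  · intro h
    rcases lt_trichotomy a b with h1 | h1 | h1
    · exact Or.inl h1
    · subst h1; right; exact ⟨rfl, by omega⟩
    · exfalso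
      have : K * (b + 1) ≤ K * a := Nat.mul_le_mul_left K h1
      rw [Nat.mul_add, Nat.mul_one] at this
      omega
  · rintro (h | ⟨h, h2⟩)
    · have : K * (a + 1) ≤ K * b := Nat.mul_le_mul_left K h
      rw [Nat.mul_add, Nat.mul_one] at this
      omega
    · subst h; omega

theorem lexeq {K a b r s : ℕ} (hr : r < K) (hs : s < K) (h : K * a + r = K * b + s) :
    a = b ∧ r = s := by
  rcases lt_trichotomy a b with h1 | h1 | h1
  · have := (lexlt hr hs).2 (Or.inl h1); omega
  · subst h1; exact ⟨rfl, by omega⟩
  · have := (lexlt hs hr).2 (Or.inl h1); omega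

section Step

variable {V : Type} [Fintype V] (x y : V → ℕ) (G : SimpleGraph V) (N : ℕ)

/-- Order preserving maps from the points (sorted by `x`) to `Fin N`. -/
def Emb : Type := {φ : V → Fin N // ∀ u v, x u < x v → φ u < φ v}

noncomputable instance : Fintype (Emb x N) := by
  classical
  unfold Emb
  infer_instance

/-- The new vertex set. -/
abbrev W : Type := Fin N ⊕ (Emb x N × V)

/-- The new graph. -/
def newG : SimpleGraph (W x N) where
  Adj p q := match p, q with
    | Sum.inl _, Sum.inl _ => False
    | Sum.inl i, Sum.inr (φ, v) => φ.1 v = i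
    | Sum.inr (φ, v), Sum.inl i => φ.1 v = i
    | Sum.inr (φ, u), Sum.inr (ψ, v) => φ = ψ ∧ G.Adj u v
  symm := ⟨by
    rintro (i | ⟨φ, u⟩) (j | ⟨ψ, v⟩) h
    · exact h
    · exact h
    · exact h
    · exact ⟨h.1.symm, h.2.symm⟩⟩
  loopless := ⟨by
    rintro (i | ⟨φ, u⟩) h
    · exact h
    · exact G.loopless.irrefl _ h.2⟩

/-- Index of a copy. -/
noncomputable def idx (φ : Emb x N) : ℕ := (Fintype.equivFin (Emb x N) φ : ℕ)

/-- Width of a strip. -/
noncomputable def KK : ℕ := Fintype.card (Emb x N) + 1

theorem idx_lt (φ : Emb x N) : idx x N φ + 1 < KK x N := by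
  unfold idx KK
  have := (Fintype.equivFin (Emb x N) φ).2
  omega

theorem idx_inj {φ ψ : Emb x N} (h : idx x N φ = idx x N ψ) : φ = ψ := by
  unfold idx at h
  exact (Fintype.equivFin (Emb x N)).injective (Fin.ext h)

/-- New `x`-coordinates. -/
noncomputable def newx : W x N → ℕ
  | Sum.inl i => KK x N * (i : ℕ) + (KK x N - 1)
  | Sum.inr (φ, v) => KK x N * (φ.1 v : ℕ) + (KK x N - 2 - idx x N φ)

/-- New `y`-coordinates; `M` bounds the old ones. -/
noncomputable def newy (M : ℕ) : W x N → ℕ
  | Sum.inl i => M * (KK x N + (i : ℕ)) + 0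
  | Sum.inr (φ, v) => M * (idx x N φ) + y v

omit [Fintype V] in
theorem emb_inj (hx : Function.Injective x) (φ : Emb x N) : Function.Injective φ.1 := by
  intro u v h
  by_contra hne
  rcases lt_or_gt_of_ne (fun h' => hne (hx h')) with h1 | h1
  · have := φ.2 _ _ h1; rw [h] at this; exact lt_irrefl _ this
  · have := φ.2 _ _ h1; rw [h] at this; exact lt_irrefl _ this

omit [Fintype V] in
theorem emb_lt_iff (hx : Function.Injective x) (φ : Emb x N) (u v : V) :
    φ.1 u < φ.1 v ↔ x u < x v := by
  constructor
  · intro h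
    rcases lt_trichotomy (x u) (x v) with h1 | h1 | h1
    · exact h1
    · have := hx h1; subst this; exact absurd h (lt_irrefl _)
    · have := φ.2 _ _ h1; exact absurd h (lt_asymm this)
  · exact φ.2 u v

section cmp

omit [Fintype V] in
theorem emb_ext {φ : Emb x N} {u v : V} (hx : Function.Injective x)
    (h : (φ.1 u : ℕ) = (φ.1 v : ℕ)) : u = v :=
  emb_inj x N hx φ (Fin.ext h)

theorem newx_rr (φ ψ : Emb x N) (u v : V) :
    newx x N (Sum.inr (φ, u)) < newx x N (Sum.inr (ψ, v)) ↔
      (φ.1 u : ℕ) < (ψ.1 v : ℕ) ∨ ((φ.1 u : ℕ) = (ψ.1 v : ℕ) ∧ idx x N ψ < idx x N φ) := by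
  have h1 := idx_lt x N φ
  have h2 := idx_lt x N ψ
  simp only [newx]
  rw [lexlt (by omega) (by omega)]
  constructor
  · rintro (h | h)
    · exact Or.inl h
    · right; exact ⟨h.1, by omega⟩
  · rintro (h | h)
    · exact Or.inl h
    · right; exact ⟨h.1, by omega⟩

theorem newx_rl (φ : Emb x N) (u : V) (i : Fin N) :
    newx x N (Sum.inr (φ, u)) < newx x N (Sum.inl i) ↔ (φ.1 u : ℕ) ≤ (i : ℕ) := by
  have h1 := idx_lt x N φ
  simp only [newx]
  rw [lexlt (by omega) (by omega)]
  omega

theorem newx_lr (φ : Emb x N) (u : V) (i : Fin N) :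
    newx x N (Sum.inl i) < newx x N (Sum.inr (φ, u)) ↔ (i : ℕ) < (φ.1 u : ℕ) := by
  have h1 := idx_lt x N φ
  simp only [newx]
  rw [lexlt (by omega) (by omega)]
  omega

theorem newx_ll (i j : Fin N) :
    newx x N (Sum.inl i) < newx x N (Sum.inl j) ↔ (i : ℕ) < (j : ℕ) := by
  have h1 : 0 < KK x N := by unfold KK; omega
  simp only [newx]
  rw [lexlt (by omega) (by omega)]
  omega

variable {M : ℕ} (hM0 : 0 < M) (hM : ∀ v, y v < M)

include hM in
theorem newy_rr (φ ψ : Emb x N) (u v : V) :
    newy x y N M (Sum.inr (φ, u)) < newy x y N M (Sum.inr (ψ, v)) ↔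
      idx x N φ < idx x N ψ ∨ (idx x N φ = idx x N ψ ∧ y u < y v) := by
  simp only [newy]
  exact lexlt (hM u) (hM v)

include hM hM0 in
theorem newy_rl (φ : Emb x N) (u : V) (i : Fin N) :
    newy x y N M (Sum.inr (φ, u)) < newy x y N M (Sum.inl i) := by
  have h1 := idx_lt x N φ
  simp only [newy]
  rw [lexlt (hM u) hM0]
  omega

include hM0 in
theorem newy_ll (i j : Fin N) :
    newy x y N M (Sum.inl i) < newy x y N M (Sum.inl j) ↔ (i : ℕ) < (j : ℕ) := by
  simp only [newy]
  rw [lexlt hM0 hM0]
  omega

end cmp

theorem good_step {M : ℕ} (hM0 : 0 < M) (hM : ∀ v, y v < M) (h : Good x y G) :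
    Good (newx x N) (newy x y N M) (newG x G N) := by
  have hxx := h.xinj
  constructor
  · -- x injective
    rintro (i | ⟨φ, u⟩) (j | ⟨ψ, v⟩) he
    · simp only [newx] at he
      have hK : 0 < KK x N := by unfold KK; omega
      have := (lexeq (by omega) (by omega) he).1
      rw [Fin.ext this]
    · simp only [newx] at he
      have := idx_lt x N ψ
      have := (lexeq (by omega) (by omega) he).2
      omega
    · simp only [newx] at he
      have := idx_lt x N φ
      have := (lexeq (by omega) (by omega) he).2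
      omega
    · simp only [newx] at he
      have h1 := idx_lt x N φ
      have h2 := idx_lt x N ψ
      have h3 := lexeq (by omega) (by omega) he
      have h4 : φ = ψ := idx_inj x N (by omega)
      subst h4
      have h5 : u = v := emb_inj x N h.xinj φ (Fin.ext h3.1)
      rw [h5]
  · -- y injective
    rintro (i | ⟨φ, u⟩) (j | ⟨ψ, v⟩) he
    · simp only [newy] at he
      have := (lexeq hM0 hM0 he).1
      rw [Fin.ext (by omega : (i : ℕ) = j)]
    · have := newy_rl x y N hM0 hM ψ v i; omega
    · have := newy_rl x y N hM0 hM φ u j; omega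
    · simp only [newy] at he
      have h3 := lexeq (hM u) (hM v) he
      have h4 : φ = ψ := idx_inj x N h3.1
      subst h4
      rw [h.yinj h3.2]
  · -- positive
    rintro (i | ⟨φ, u⟩) (j | ⟨ψ, v⟩) ha hx
    · exact absurd ha id
    · rw [newx_lr] at hx
      have ha' : ψ.1 v = i := ha
      rw [ha'] at hx; omega
    · exact newy_rl x y N hM0 hM φ u j
    · obtain ⟨h1, h2⟩ : φ = ψ ∧ G.Adj u v := ha
      subst h1
      rw [newx_rr] at hx
      rw [newy_rr x y N hM]
      right
      refine ⟨rfl, h.pos u v h2 ?_⟩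
      rcases hx with hx | hx
      · exact (emb_lt_iff x N hxx φ u v).1 hx
      · exact absurd hx.2 (lt_irrefl _)
  · -- box
    rintro (i | ⟨φ, u⟩) (j | ⟨ψ, v⟩) (k | ⟨χ, w⟩) ha hx1 hx2 hy1 hy2
    · exact ha
    · have := newy_rl x y N hM0 hM χ w j; omega
    · exact ha
    · have := newy_rl x y N hM0 hM χ w i
      omega
    · rw [newx_rl] at hx1
      rw [newx_ll] at hx2
      have ha' : φ.1 u = k := ha
      rw [ha'] at hx1; omega
    · have := newy_rl x y N hM0 hM χ w j; omega
    · rw [newx_rr] at hx1
      rw [newx_rl] at hx2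
      rw [newy_rr x y N hM] at hy1
      have ha' : φ.1 u = k := ha
      rw [ha'] at hx1
      rcases hx1 with hx1 | hx1
      · omega
      · rcases hy1 with hy1 | hy1
        · omega
        · omega
    · obtain ⟨h1, h2⟩ : φ = χ ∧ G.Adj u w := ha
      subst h1
      rw [newy_rr x y N hM] at hy1 hy2
      have h3 : φ = ψ := idx_inj x N (by omega)
      subst h3
      rw [newx_rr] at hx1 hx2
      refine h.box u v w h2 ((emb_lt_iff x N hxx φ u v).1 ?_) ((emb_lt_iff x N hxx φ v w).1 ?_)
        (by omega) (by omega)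
      · rcases hx1 with h | h
        · exact h
        · omega
      · rcases hx2 with h | h
        · exact h
        · omega
  · -- triangle-free
    rintro (i | ⟨φ, u⟩) (j | ⟨ψ, v⟩) (k | ⟨χ, w⟩) h1 h2 h3
    · exact h1
    · exact h1
    · exact h3
    · obtain ⟨h4, h5⟩ : ψ = χ ∧ G.Adj v w := h2
      subst h4
      have h6 : ψ.1 v = i := h1
      have h7 : ψ.1 w = i := h3
      exact G.ne_of_adj h5 (emb_inj x N hxx ψ (h6.trans h7.symm))
    · exact h2
    · obtain ⟨h4, h5⟩ : φ = χ ∧ G.Adj u w := h3
      subst h4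
      have h6 : φ.1 u = j := h1
      have h7 : φ.1 w = j := h2
      exact G.ne_of_adj h5 (emb_inj x N hxx φ (h6.trans h7.symm))
    · obtain ⟨h4, h5⟩ : φ = ψ ∧ G.Adj u v := h1
      subst h4
      have h6 : φ.1 u = k := h3
      have h7 : φ.1 v = k := h2
      exact G.ne_of_adj h5 (emb_inj x N hxx φ (h6.trans h7.symm))
    · exact h.tri u v w h1.2 h2.2 h3.2

theorem exists_emb_of_card (S : Finset (Fin N))
    (hS : Fintype.card V ≤ S.card) : ∃ φ : Emb x N, ∀ v, φ.1 v ∈ S := by
  classical
  let ρ : V → ℕ := fun v => (Finset.univ.filter (fun u => x u < x v)).card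
  have hρ : ∀ v, ρ v < Fintype.card V := by
    intro v
    have : (Finset.univ.filter (fun u => x u < x v)) ⊂ (Finset.univ : Finset V) := by
      rw [Finset.ssubset_univ_iff]
      intro h
      have := Finset.mem_univ v
      rw [← h] at this
      simp at this
    exact Finset.card_lt_card this
  have hmono : ∀ u v, x u < x v → ρ u < ρ v := by
    intro u v huv
    apply Finset.card_lt_card
    rw [Finset.ssubset_iff_of_subset]
    · exact ⟨u, by simp [huv], by simp⟩
    · intro w hw
      simp only [Finset.mem_filter, Finset.mem_univ, true_and] at hw ⊢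
      exact lt_trans hw huv
  let e := S.orderEmbOfCardLe hS
  refine ⟨⟨fun v => e ⟨ρ v, hρ v⟩, ?_⟩, ?_⟩
  · intro u v huv
    exact e.strictMono (hmono u v huv)
  · intro v
    exact Finset.orderEmbOfCardLe_mem S hS _

theorem not_colorable_step (k : ℕ) (hG : ¬ G.Colorable k)
    (hN : (k + 1) * Fintype.card V ≤ N) :
    ¬ (newG x G N).Colorable (k + 1) := by
  classical
  rintro ⟨c⟩
  -- a monochromatic set of size `card V`
  have hpig : ∃ i : Fin (k + 1), Fintype.card V ≤
      (Finset.univ.filter (fun a : Fin N => c (Sum.inl a) = i)).card := by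
    have := Fintype.exists_le_card_fiber_of_mul_le_card (α := Fin N) (β := Fin (k+1))
      (f := fun a => c (Sum.inl a)) (n := Fintype.card V) (by simpa using hN)
    simpa using this
  obtain ⟨i, hi⟩ := hpig
  obtain ⟨φ, hφ⟩ := exists_emb_of_card x N _ hi
  have hne : ∀ v, c (Sum.inr (φ, v)) ≠ i := by
    intro v hv
    have h1 : c (Sum.inl (φ.1 v)) = i := by
      have := hφ v
      simpa using this
    have h2 : (newG x G N).Adj (Sum.inr (φ, v)) (Sum.inl (φ.1 v)) := rfl
    exact c.valid h2 (hv.trans h1.symm)
  apply hG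
  -- colour the copy with the remaining `k` colours
  have hcol : G.Colorable (Fintype.card {j : Fin (k+1) // j ≠ i}) := by
    have : G.Coloring {j : Fin (k+1) // j ≠ i} := by
      refine SimpleGraph.Coloring.mk (fun v => ⟨c (Sum.inr (φ, v)), hne v⟩) ?_
      intro u v huv h
      have h3 : (newG x G N).Adj (Sum.inr (φ, u)) (Sum.inr (φ, v)) := ⟨rfl, huv⟩
      exact c.valid h3 (by simpa using h)
    exact this.colorable
  simpa [Fintype.card_subtype_compl] using hcol

end Step

theorem exists_good (k : ℕ) : ∃ (V : Type) (_ : Fintype V) (x y : V → ℕ) (G : SimpleGraph V),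
    Good x y G ∧ ¬ G.Colorable k := by
  induction k with
  | zero =>
    refine ⟨Unit, inferInstance, fun _ => 0, fun _ => 0, ⊥, ?_, ?_⟩
    · constructor
      · intro a b _; rfl
      · intro a b _; rfl
      · intro u v h; exact absurd h (by simp)
      · intro u v w h; exact absurd h (by simp)
      · intro u v w h; exact absurd h (by simp)
    · rintro ⟨c⟩
      exact (c ()).elim0
  | succ k ih =>
    obtain ⟨V, _, x, y, G, h, hG⟩ := ih
    obtain ⟨M, hM⟩ : ∃ M, ∀ v, y v < M := by
      refine ⟨(Finset.univ.sup y) + 1, fun v => ?_⟩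
      have := Finset.le_sup (f := y) (Finset.mem_univ v)
      omega
    let M' := M + 1
    refine ⟨W x ((k + 1) * Fintype.card V), inferInstance, _, _, _,
      good_step x y G ((k + 1) * Fintype.card V) (M := M + 1) (by omega)
        (fun v => by have := hM v; omega) h, ?_⟩
    exact not_colorable_step x G _ k hG le_rfl

theorem exists_good_fin (k : ℕ) : ∃ (n : ℕ) (x y : Fin n → ℕ) (G : SimpleGraph (Fin n)),
    Good x y G ∧ ¬ G.Colorable k := by
  obtain ⟨V, _, x, y, G, h, hG⟩ := exists_good k
  let e := (Fintype.equivFin V).symm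
  refine ⟨Fintype.card V, x ∘ e, y ∘ e, G.comap e, ?_, ?_⟩
  · constructor
    · exact h.xinj.comp e.injective
    · exact h.yinj.comp e.injective
    · intro u v h1 h2; exact h.pos _ _ h1 h2
    · intro u v w h1 h2 h3 h4 h5; exact h.box _ _ _ h1 h2 h3 h4 h5
    · intro u v w h1 h2 h3; exact h.tri _ _ _ h1 h2 h3
  · rintro ⟨c⟩
    apply hG
    refine ⟨SimpleGraph.Coloring.mk (fun v => c (e.symm v)) ?_⟩
    intro u v huv
    apply c.valid
    show G.Adj (e (e.symm u)) (e (e.symm v))
    simpa using huv

/-! ### The tournament -/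

/-- The tournament whose backedge graph for the `y`-order is `G`. -/
def tour {V : Type} (y : V → ℕ) (G : SimpleGraph V) (u v : V) : Prop :=
  (G.Adj u v ∧ y v < y u) ∨ (¬ G.Adj u v ∧ y u < y v)

theorem tour_isTournament {V : Type} {x y : V → ℕ} {G : SimpleGraph V} (h : Good x y G) :
    IsTournament (tour y G) := by
  refine ⟨?_, ?_, ?_⟩
  · rintro v (⟨h1, h2⟩ | ⟨h1, h2⟩)
    · omega
    · omega
  · intro u v huv
    have hy : y u ≠ y v := fun h' => huv (h.yinj h')
    unfold tour
    by_cases ha : G.Adj u v
    · have ha' := ha.symm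
      rcases lt_or_gt_of_ne hy with h1 | h1
      · right; left; exact ⟨ha', h1⟩
      · left; left; exact ⟨ha, h1⟩
    · have ha' : ¬ G.Adj v u := fun h' => ha h'.symm
      rcases lt_or_gt_of_ne hy with h1 | h1
      · left; right; exact ⟨ha, h1⟩
      · right; right; exact ⟨ha', h1⟩
  · rintro u v (⟨h1, h2⟩ | ⟨h1, h2⟩) (⟨h3, h4⟩ | ⟨h3, h4⟩)
    · omega
    · exact h3 h1.symm
    · exact h1 h3.symm
    · omega

theorem strictTotal {V : Type} {x : V → ℕ} (hx : Function.Injective x) :
    IsStrictTotalOrder V (fun u v => x u < x v) where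
  trichotomous a b := by
    intro h1 h2
    exact hx (by omega)
  irrefl a := lt_irrefl _
  trans a b c := lt_trans

theorem tour_isPoset {V : Type} {x y : V → ℕ} {G : SimpleGraph V} (h : Good x y G) :
    IsPosetTournament (tour y G) := by
  refine ⟨tour_isTournament h, fun u v => x u < x v, strictTotal h.xinj, ?_⟩
  -- forward arcs are the nonadjacent pairs of positive slope
  have key : ∀ u v, x u < x v → tour y G u v → ¬ G.Adj u v ∧ y u < y v := by
    rintro u v hx (⟨h1, h2⟩ | h1)
    · have := h.pos u v h1 hx; omega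
    · exact h1
  intro u v w huv hvw h1 h2
  have h3 := key u v huv h1
  have h4 := key v w hvw h2
  right
  refine ⟨fun ha => h.box u v w ha huv hvw h3.2 h4.2, by omega⟩

theorem tour_cliqueNumber {V : Type} [Finite V] {x y : V → ℕ} {G : SimpleGraph V}
    (h : Good x y G) : cliqueNumber (tour y G) ≤ 2 := by
  classical
  have hB : backedge (tour y G) (fun u v => y u < y v) = G := by
    ext u v
    simp only [backedge, SimpleGraph.fromRel_adj, tour]
    constructor
    · rintro ⟨h1, (⟨h2, (h3 | h3)⟩ | ⟨h2, (h3 | h3)⟩)⟩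
      · exact h3.1.symm
      · omega
      · exact h3.1
      · omega
    · intro ha
      refine ⟨ha.ne, ?_⟩
      have hy : y u ≠ y v := fun h' => ha.ne (h.yinj h')
      rcases lt_or_gt_of_ne hy with h1 | h1
      · left; exact ⟨h1, Or.inl ⟨ha.symm, h1⟩⟩
      · right; exact ⟨h1, Or.inl ⟨ha, h1⟩⟩
  have h1 : cliqueNumber (tour y G) ≤ G.cliqueNum := by
    apply Nat.sInf_le
    exact ⟨fun u v => y u < y v, strictTotal h.yinj, by rw [hB]⟩
  refine h1.trans ?_
  by_contra hlt
  push Not at hlt
  obtain ⟨s, hs⟩ := G.exists_isNClique_cliqueNum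
  obtain ⟨t, hts, ht⟩ := Finset.exists_subset_card_eq (s := s) (n := 3) (by rw [hs.2]; omega)
  obtain ⟨a, b, c, hab, hac, hbc, rfl⟩ := Finset.card_eq_three.1 ht
  have hcl := hs.1
  have ha : a ∈ (s : Set V) := hts (by simp)
  have hb : b ∈ (s : Set V) := hts (by simp)
  have hc : c ∈ (s : Set V) := hts (by simp)
  exact h.tri a b c (hcl ha hb hab) (hcl hb hc hbc) (hcl ha hc hac)

theorem tour_colorable {V : Type} {x y : V → ℕ} {G : SimpleGraph V} (h : Good x y G) {k : ℕ}
    (c : V → Fin k) (hc : ∀ i, AcyclicOn (tour y G) {v | c v = i}) : G.Colorable (2 * k) := by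
  classical
  let b : V → Fin 2 := fun v => if ∃ w, c w = c v ∧ y w < y v ∧ G.Adj v w then 1 else 0
  have hcol : G.Coloring (Fin 2 × Fin k) := by
    refine SimpleGraph.Coloring.mk (fun v => (b v, c v)) ?_
    -- main claim
    have main : ∀ u v, G.Adj u v → y u < y v → c u = c v → b u = b v → False := by
      intro u v ha hy hcuv hb
      have hbv : b v = 1 := by
        have : ∃ w, c w = c v ∧ y w < y v ∧ G.Adj v w := ⟨u, hcuv, hy, ha.symm⟩
        simp only [b, this, if_true]
      rw [hbv] at hb
      have hbu : ∃ w, c w = c u ∧ y w < y u ∧ G.Adj u w := by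
        by_contra hcon
        simp only [b, hcon, if_false] at hb
        exact absurd hb (by decide)
      obtain ⟨w, hw1, hw2, hw3⟩ := hbu
      have t1 : tour y G v u := Or.inl ⟨ha.symm, hy⟩
      have t2 : tour y G u w := Or.inl ⟨hw3, hw2⟩
      have t3 : tour y G w v := by
        right
        refine ⟨fun h' => h.tri u w v hw3 h' ha, by omega⟩
      refine hc (c v) v ?_
      have m1 : v ∈ {z | c z = c v} := rfl
      have m2 : u ∈ {z | c z = c v} := hcuv
      have m3 : w ∈ {z | c z = c v} := hw1.trans hcuv
      exact Relation.TransGen.trans (Relation.TransGen.trans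
        (Relation.TransGen.single ⟨m1, m2, t1⟩) (Relation.TransGen.single ⟨m2, m3, t2⟩))
        (Relation.TransGen.single ⟨m3, m1, t3⟩)
    intro u v ha heq
    have h1 : b u = b v := (Prod.ext_iff.1 heq).1
    have h2 : c u = c v := (Prod.ext_iff.1 heq).2
    have hy : y u ≠ y v := fun h' => ha.ne (h.yinj h')
    rcases lt_or_gt_of_ne hy with h3 | h3
    · exact main u v ha h3 h2 h1
    · exact main v u ha.symm h3 h2.symm h1.symm
  have := hcol.colorable
  simpa using this

theorem dichromatic_nonempty {n : ℕ} {D : Fin n → Fin n → Prop} (hD : ∀ v, ¬ D v v) :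
    {k | ∃ c : Fin n → Fin k, ∀ i, AcyclicOn D {v | c v = i}}.Nonempty := by
  refine ⟨n, id, ?_⟩
  intro i v hv
  have : ∀ a b, Relation.TransGen
      (fun a b => a ∈ {v : Fin n | id v = i} ∧ b ∈ {v : Fin n | id v = i} ∧ D a b) a b → False := by
    intro a b hab
    induction hab with
    | single h =>
      obtain ⟨h1, h2, h3⟩ := h
      simp only [id, Set.mem_ofPred_eq] at h1 h2
      rw [h1, h2] at h3
      exact hD _ h3
    | tail _ _ ih => exact ih
  exact this v v hv

/-- For every `m` there is a poset tournament with clique number at most `2` and dichromatic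
number larger than `m`; hence the class of poset tournaments is not chi-bounded. -/
theorem result :
    (∀ m : ℕ, ∃ (n : ℕ) (T : Fin n → Fin n → Prop),
      IsPosetTournament T ∧ cliqueNumber T ≤ 2 ∧ m < dichromaticNumber T) ∧
    ¬ ∃ f : ℕ → ℕ, ∀ (n : ℕ) (T : Fin n → Fin n → Prop),
      IsPosetTournament T → dichromaticNumber T ≤ f (cliqueNumber T) := by
  have main : ∀ m : ℕ, ∃ (n : ℕ) (T : Fin n → Fin n → Prop),
      IsPosetTournament T ∧ cliqueNumber T ≤ 2 ∧ m < dichromaticNumber T := by
    intro m
    obtain ⟨n, x, y, G, h, hG⟩ := exists_good_fin (2 * m)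
    refine ⟨n, tour y G, tour_isPoset h, tour_cliqueNumber h, ?_⟩
    by_contra hlt
    push Not at hlt
    obtain ⟨c, hc⟩ := Nat.sInf_mem (dichromatic_nonempty (tour_isTournament h).1)
    exact hG ((tour_colorable h c hc).mono (Nat.mul_le_mul_left 2 hlt))
  refine ⟨main, ?_⟩
  rintro ⟨f, hf⟩
  obtain ⟨n, T, h1, h2, h3⟩ := main (f 0 + f 1 + f 2)
  have h4 := hf n T h1
  have h5 : f (cliqueNumber T) ≤ f 0 + f 1 + f 2 := by
    interval_cases cliqueNumber T <;> omega
  omega

end Pool.Agent.Results.MP_265233_co.NotChiBounded
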